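import Pool.Agent.W345.VO.Stm

/-!
# The modes of `al` and of the conformal vector
-/

set_option autoImplicit false

namespace Pool.Agent.W589.VO

open MvPolynomial Pool.Agent.W345.VO

lemma bc_zero (i : ℕ) : bc 0 i = if i = 0 then 1 else 0 := by
  unfold bc
  rw [Ring.choose_zero_ite]
  split_ifs <;> simp

lemma bc_neg_one (i : ℕ) : bc (-1) i = (-1) ^ i := by
  unfold bc
  rw [Ring.choose_neg]
  have h : (1 : ℤ) + i - 1 = ((i : ℕ) : ℤ) := by ring
  rw [h, Ring.choose_natCast, Nat.choose_self]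
  rcases Nat.even_or_odd i with h | h
  · rw [Int.negOnePow_even (i : ℤ) (by exact_mod_cast h), h.neg_one_pow]
    simp
  · rw [Int.negOnePow_odd (i : ℤ) (by exact_mod_cast h), h.neg_one_pow]
    simp

lemma finsum_bc_zero {M : Type*} [AddCommGroup M] [Module ℂ M] (f : ℕ → M) :
    ∑ᶠ i : ℕ, bc 0 i • f i = f 0 := by
  rw [finsum_eq_single _ 0]
  · rw [bc_zero, if_pos rfl, one_smul]
  · intro i hi
    rw [bc_zero, if_neg hi, zero_smul]

theorem al_eq : S_BAS → S_EF → S_AL := by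
  intro hB hEF A hA
  obtain ⟨h1, h2, h3, h4⟩ := hA
  have hal : A.Y (ee 1) 0 (ee (-1)) = al := by
    rw [h2, hB.1]
    have e1 : ((-1 : ℤ) + 1) = 0 := by norm_num
    have e2 : (-(0 : ℤ) - 1 - 2 * 1 * (-1)) = 1 := by norm_num
    rw [e1, e2]
    unfold al sz
    rw [if_pos (by norm_num : (0 : ℤ) ≤ 1)]
    have e3 : (1 : ℤ).toNat = 0 + 1 := by rfl
    rw [e3, ss_succ]
    simp [ss_zero]
  funext m
  apply LinearMap.ext
  intro v
  have hb := A.borcherds (ee 1) (ee (-1)) v 0 m 0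
  rw [finsum_bc_zero (fun i : ℕ => A.Y (A.Y (ee 1) (0 + i) (ee (-1))) (0 + m - i) v)] at hb
  have hr : ∀ i : ℕ, ((-1 : ℂ) ^ i * bc 0 i) • (A.Y (ee 1) (0 + 0 - i) (A.Y (ee (-1)) (m + i) v) -
      (-1 : ℂ) ^ (0 : ℤ) • A.Y (ee (-1)) (m + 0 - i) (A.Y (ee 1) (0 + i) v)) =
      bc 0 i • ((-1 : ℂ) ^ i • (A.Y (ee 1) (0 + 0 - i) (A.Y (ee (-1)) (m + i) v) -
      (-1 : ℂ) ^ (0 : ℤ) • A.Y (ee (-1)) (m + 0 - i) (A.Y (ee 1) (0 + i) v))) := by
    intro i
    rw [smul_smul, mul_comm]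
  rw [finsum_congr hr, finsum_bc_zero] at hb
  simp only [Nat.cast_zero, add_zero, zero_add, sub_zero, pow_zero, zpow_zero, one_smul] at hb
  rw [hal, h2, h3, hEF] at hb
  rw [hb]
  simp

theorem om_eq : S_AL → S_OM := by
  intro hAL A hA m v
  have hYal := hAL A hA
  obtain ⟨h1, h2, h3, h4⟩ := hA
  have e1 : hOp (-1) al = Finsupp.single 0 (X 0 * X 0) := by
    have := hOp_neg 0 0 (X 0)
    simpa [al] using this
  have hDX : DD (X 0) = X 1 := by
    unfold DD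
    rw [mkDerivation_X]
    simp
  have e2 : TT al = Finsupp.single 0 (X 1) := by
    unfold al
    rw [TT_single, hDX]
    simp
  have e3 : TT (ee 1) = Finsupp.single 1 (X 0) := by
    unfold ee
    rw [TT_single]
    simp
  have e4 : TT (TT (ee 1)) = Finsupp.single 1 (X 1 + X 0 ^ 2) := by
    rw [e3, TT_single, hDX]
    simp [pow_two]
  have hom : om = (1 / 4 : ℂ) • hOp (-1) al + (1 / 2 : ℂ) • TT al + TT (TT (ee 1)) := by
    rw [e1, e2, e4, om, Finsupp.smul_single, Finsupp.smul_single, ← Finsupp.single_add]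
    congr 2
    rw [MvPolynomial.smul_eq_C_mul, MvPolynomial.smul_eq_C_mul, pow_two]
  have hb := A.borcherds al al v 0 m (-1)
  rw [finsum_bc_zero (fun i : ℕ => A.Y (A.Y al (-1 + i) al) (0 + m - i) v)] at hb
  have hr : ∀ i : ℕ, ((-1 : ℂ) ^ i * bc (-1) i) • (A.Y al (0 + -1 - i) (A.Y al (m + i) v) -
      (-1 : ℂ) ^ (-1 : ℤ) • A.Y al (m + -1 - i) (A.Y al (0 + i) v)) =
      hOp (-1 - i) (hOp (m + i) v) + hOp (m - 1 - i) (hOp i v) := by
    intro i
    rw [bc_neg_one, ← mul_pow, hYal]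
    simp only [mul_neg, mul_one, neg_neg, one_pow, one_smul, zero_add, zpow_neg, zpow_one,
      inv_neg, inv_one, neg_smul, sub_neg_eq_add]
    rfl
  rw [finsum_congr hr] at hb
  simp only [Nat.cast_zero, add_zero, zero_add, sub_zero] at hb
  rw [hom, map_add, map_add, map_smul, map_smul]
  simp only [Pi.add_apply, Pi.smul_apply, LinearMap.add_apply, LinearMap.smul_apply]
  rw [h4, h4]
  simp only [LinearMap.smul_apply]
  rw [h4, hYal, h2]
  rw [hYal] at hb
  rw [hb]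
  simp only [LinearMap.smul_apply, smul_smul]
  have e5 : m - 1 - 1 = m - 2 := by ring
  have e6 : (1 / 2 * -(m : ℂ)) = -((m : ℂ) / 2) := by ring
  have e7 : (-(m : ℂ) * -((m - 1 : ℤ) : ℂ)) = (m : ℂ) * (m - 1) := by
    push_cast
    ring
  rw [e5, e6, e7, neg_smul, ← sub_eq_add_neg]

end Pool.Agent.W589.VO
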